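import Pool.Agent.H50.EC.Defs

/-! Targets for the counterexample to the Everett-Reed conjecture (S09780). -/

set_option autoImplicit false

namespace Pool.Agent.H50.EC

/-- Every chordless cycle of G with at least 4 vertices has 4 or 6 vertices. -/
def T_CYC : Prop :=
  ∀ (k : ℕ) (v : ℕ → Fin 32), 4 ≤ k →
    (∀ i j : ℕ, i < k → j < k → v i = v j → i = j) →
    (∀ i j : ℕ, i < j → j < k → (G.Adj (v i) (v j) ↔ (j = i + 1 ∨ (i = 0 ∧ j = k - 1)))) →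
    k = 4 ∨ k = 6

/-- Every chordless cycle of the complement of G with at least 4 vertices has 4 vertices. -/
def T_ACYC : Prop :=
  ∀ (k : ℕ) (v : ℕ → Fin 32), 4 ≤ k →
    (∀ i j : ℕ, i < k → j < k → v i = v j → i = j) →
    (∀ i j : ℕ, i < j → j < k → (¬ G.Adj (v i) (v j) ↔ (j = i + 1 ∨ (i = 0 ∧ j = k - 1)))) →
    k = 4

/-- G has no even pair. -/
def T_NEP : Prop :=
  ∀ x y : Fin 32, x ≠ y → ¬ G.Adj x y →
    ∃ p : G.Walk x y, p.IsPath ∧
      (∀ i j : ℕ, i + 1 < j → j ≤ p.length → ¬ G.Adj (p.getVert i) (p.getVert j)) ∧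
      p.length % 2 = 1

/-- G has no odd prism (the third condition of the frozen statement). -/
def T_PR : Prop :=
  ¬ ∃ (a1 a2 a3 b1 b2 b3 : Fin 32) (p1 : G.Walk a1 b1) (p2 : G.Walk a2 b2) (p3 : G.Walk a3 b3),
        p1.IsPath ∧ p2.IsPath ∧ p3.IsPath ∧
        p1.length % 2 = 1 ∧ p2.length % 2 = 1 ∧ p3.length % 2 = 1 ∧
        (∀ w : Fin 32, w ∈ p1.support → w ∉ p2.support) ∧
        (∀ w : Fin 32, w ∈ p1.support → w ∉ p3.support) ∧
        (∀ w : Fin 32, w ∈ p2.support → w ∉ p3.support) ∧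
        ∀ u v : Fin 32,
          (u ∈ p1.support ∨ u ∈ p2.support ∨ u ∈ p3.support) →
          (v ∈ p1.support ∨ v ∈ p2.support ∨ v ∈ p3.support) →
          (G.Adj u v ↔
            (p1.toSubgraph.Adj u v ∨ p2.toSubgraph.Adj u v ∨ p3.toSubgraph.Adj u v ∨
             (u ≠ v ∧ (u = a1 ∨ u = a2 ∨ u = a3) ∧ (v = a1 ∨ v = a2 ∨ v = a3)) ∨
             (u ≠ v ∧ (u = b1 ∨ u = b2 ∨ u = b3) ∧ (v = b1 ∨ v = b2 ∨ v = b3))))

end Pool.Agent.H50.EC
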