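import Mathlib

/-!
A counterexample to the Everett-Reed conjecture with 32 vertices (MP_816b90_co, S09780).

Vertices: for j = 0,1,2,3 the module 8j..8j+7 = g, h, h', m, m', e1, e2, e3.
Edges: g-e1, h-h', h-m, h'-m', m-e2, m'-e3, e1-e2, e1-e3, e2-e3 in every module; for i /= j the vertices
g, h, h' of module i are complete to g, h, h' of module j; g of module i is complete to m, m', e1, e2, e3 of
module j; h, h' of module i are complete to m, m', e1, e2, e3 of module j except e_s, s = (i - j) mod 4.
The table BIG has 32 rows of 32 bits: bit 32 * u + v is 1 iff u v is an edge.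
-/

set_option autoImplicit false

namespace Pool.Agent.H50.EC

/-- The adjacency table, 32 rows of 32 bits. -/
def BIG : Nat := 78651893038326200886755361411165263783374043805010818414795524118406179714936075908110118706307446272976886947042260342168127812377884220784602493164341530669473174905645470018313366505433346109911432922388486813988868269609019714221325989216558790367439115735755253753636910321301471809193175653549659389728

/-- The neighbours of u as a bit mask. -/
def nb (u : Nat) : Nat := (BIG >>> (32 * u)) &&& 4294967295

/-- u and v are adjacent. -/
def A (u v : Nat) : Bool := Nat.testBit (nb u) v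

/-- The nonneighbours of u (without u) as a bit mask. -/
def cnb (u : Nat) : Nat := (4294967295 ^^^ nb u) ^^^ (1 <<< u)

/-- u and v are different and not adjacent. -/
def CA (u v : Nat) : Bool := Nat.testBit (cnb u) v

set_option maxRecDepth 100000 in
theorem A_symm (u v : Fin 32) : A u.1 v.1 = A v.1 u.1 := by
  revert u v; decide +kernel

set_option maxRecDepth 100000 in
theorem A_irrefl (u : Fin 32) : A u.1 u.1 = false := by
  revert u; decide +kernel

set_option maxRecDepth 100000 in
theorem CA_iff (u v : Fin 32) : CA u.1 v.1 = (decide (u ≠ v) && !(A u.1 v.1)) := by
  revert u v; decide +kernel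

/-- The graph. -/
def G : SimpleGraph (Fin 32) where
  Adj u v := A u.1 v.1 = true
  symm := ⟨by
    intro u v h
    rw [A_symm] at h
    exact h⟩
  loopless := ⟨by
    intro u h
    rw [A_irrefl] at h
    exact Bool.noConfusion h⟩

theorem G_adj (u v : Fin 32) : G.Adj u v ↔ A u.1 v.1 = true := Iff.rfl

end Pool.Agent.H50.EC
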