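import Pool.Agent.H50.EC.Targets

/-! Verified search for chordless cycles in the counterexample graph and in its complement. -/

set_option autoImplicit false

namespace Pool.Agent.H50.EC

/-- The 32 indices. -/
def ix : List Nat :=
  [0, 1, 2, 3, 4, 5, 6, 7, 8, 9, 10, 11, 12, 13, 14, 15, 16, 17, 18, 19, 20, 21, 22, 23, 24, 25,
   26, 27, 28, 29, 30, 31]

theorem mem_ix {w : Nat} (h : w < 32) : w ∈ ix := by
  unfold ix
  interval_cases w <;> simp

/-- Evaluate x before f is applied (this only guides the kernel). -/
def force (x : Nat) (f : Nat → Bool) : Bool :=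
  match x with
  | 0 => f 0
  | n + 1 => f (n + 1)

theorem force_eq (x : Nat) (f : Nat → Bool) : force x f = f x := by
  cases x <;> rfl

/-- Depth first search: c is the last vertex of a chordless path, D the vertices which may still be
used inside the path, T the vertices which may close the cycle, l the number of vertices of the
cycle if it is closed now. -/
def go (N : Nat → Nat) (bad : Nat → Bool) : Nat → Nat → Nat → Nat → Nat → Bool
  | 0, _, _, _, _ => true
  | f + 1, l, c, D, T =>
    force (N c) fun Nc =>
      (bad l && !(T &&& Nc == 0)) ||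
        force (T &&& (4294967295 ^^^ Nc)) fun T' =>
          !(T' == 0) && force (D &&& Nc) fun S =>
            !(S == 0) && force (D &&& (4294967295 ^^^ Nc)) fun D' =>
              ix.any (fun w => Nat.testBit S w && go N bad f (l + 1) w D' T')

/-- The whole search. -/
def search (N : Nat → Nat) (bad : Nat → Bool) : Bool :=
  ix.any fun s => force (N s) fun Ns => ix.any fun a => Nat.testBit Ns a &&
    force ((4294967295 ^^^ Ns) ^^^ (1 <<< s)) fun D =>
      force ((Ns &&& (4294967295 ^^^ N a)) ^^^ (1 <<< a)) fun T => go N bad 33 3 a D T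

theorem full_testBit {w : Nat} (h : w < 32) : Nat.testBit 4294967295 w = true := by
  interval_cases w <;> decide

theorem compl_testBit (x : Nat) {w : Nat} (h : w < 32) :
    Nat.testBit (4294967295 ^^^ x) w = !(Nat.testBit x w) := by
  rw [Nat.testBit_xor, full_testBit h]
  simp

theorem one_shl_testBit {s w : Nat} (h : s ≠ w) : Nat.testBit (1 <<< s) w = false := by
  rw [Nat.one_shiftLeft]
  exact Nat.testBit_two_pow_of_ne h

theorem go_complete (N : Nat → Nat) (bad : Nat → Bool) (k : ℕ) (v : ℕ → ℕ) (hk : 4 ≤ k)
    (hlt : ∀ i, i < k → v i < 32)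
    (hadj : ∀ i j : ℕ, i < j → j < k →
      (Nat.testBit (N (v i)) (v j) = true ↔ (j = i + 1 ∨ (i = 0 ∧ j = k - 1))))
    (hb : bad k = true) :
    ∀ (f m D T : ℕ), 1 ≤ m → m + 2 ≤ k →
      (∀ j, m < j → j + 1 < k → Nat.testBit D (v j) = true) →
      Nat.testBit T (v (k - 1)) = true → go N bad f (m + 2) (v m) D T = true := by
  intro f
  induction f with
  | zero => intro m D T _ _ _ _; rfl
  | succ f ih =>
    intro m D T h1 h2 hD hT
    unfold go
    rw [force_eq, force_eq, force_eq, force_eq, Bool.or_eq_true]
    by_cases hm : m + 2 = k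
    · left
      rw [hm, hb, Bool.true_and]
      have h3 : Nat.testBit (N (v m)) (v (k - 1)) = true := by
        rw [hadj m (k - 1) (by omega) (by omega)]
        left; omega
      have h4 : Nat.testBit (T &&& N (v m)) (v (k - 1)) = true := by
        rw [Nat.testBit_and, hT, h3]; rfl
      have h5 : T &&& N (v m) ≠ 0 := by
        intro h
        rw [h, Nat.zero_testBit] at h4
        exact Bool.noConfusion h4
      simp [h5]
    · right
      have hS : Nat.testBit (D &&& N (v m)) (v (m + 1)) = true := by
        rw [Nat.testBit_and, hD (m + 1) (by omega) (by omega),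
          (hadj m (m + 1) (by omega) (by omega)).2 (Or.inl rfl)]
        rfl
      have hS0 : D &&& N (v m) ≠ 0 := by
        intro h
        rw [h, Nat.zero_testBit] at hS
        exact Bool.noConfusion hS
      have hT' : Nat.testBit (T &&& (4294967295 ^^^ N (v m))) (v (k - 1)) = true := by
        have h5 : Nat.testBit (N (v m)) (v (k - 1)) = false := by
          rw [Bool.eq_false_iff]
          intro h
          rw [hadj m (k - 1) (by omega) (by omega)] at h
          omega
        rw [Nat.testBit_and, hT, compl_testBit _ (hlt (k - 1) (by omega)), h5]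
        rfl
      have hT0 : T &&& (4294967295 ^^^ N (v m)) ≠ 0 := by
        intro h
        rw [h, Nat.zero_testBit] at hT'
        exact Bool.noConfusion hT'
      have e1 : (!(T &&& (4294967295 ^^^ N (v m)) == 0)) = true := by simp [hT0]
      have e2 : (!(D &&& N (v m) == 0)) = true := by simp [hS0]
      rw [e1, e2, Bool.true_and, Bool.true_and, List.any_eq_true]
      refine ⟨v (m + 1), mem_ix (hlt _ (by omega)), ?_⟩
      rw [hS, Bool.true_and]
      refine ih (m + 1) _ _ (by omega) (by omega) ?_ hT'
      · intro j hj1 hj2
        have h5 : Nat.testBit (N (v m)) (v j) = false := by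
          rw [Bool.eq_false_iff]
          intro h
          rw [hadj m j (by omega) (by omega)] at h
          omega
        rw [Nat.testBit_and, hD j (by omega) hj2, compl_testBit _ (hlt j (by omega)), h5]
        rfl

theorem search_complete (N : Nat → Nat) (bad : Nat → Bool) (k : ℕ) (v : ℕ → ℕ) (hk : 4 ≤ k)
    (hlt : ∀ i, i < k → v i < 32)
    (hinj : ∀ i j : ℕ, i < k → j < k → v i = v j → i = j)
    (hadj : ∀ i j : ℕ, i < j → j < k →
      (Nat.testBit (N (v i)) (v j) = true ↔ (j = i + 1 ∨ (i = 0 ∧ j = k - 1))))
    (hb : bad k = true) : search N bad = true := by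
  unfold search
  rw [List.any_eq_true]
  refine ⟨v 0, mem_ix (hlt 0 (by omega)), ?_⟩
  rw [force_eq, List.any_eq_true]
  refine ⟨v 1, mem_ix (hlt 1 (by omega)), ?_⟩
  rw [force_eq, force_eq]
  have h3 : Nat.testBit (N (v 0)) (v 1) = true := by
    rw [hadj 0 1 (by omega) (by omega)]
    left; rfl
  rw [h3, Bool.true_and]
  refine go_complete N bad k v hk hlt hadj hb 33 1 _ _ le_rfl (by omega) ?_ ?_
  · intro j hj1 hj2
    have h5 : Nat.testBit (N (v 0)) (v j) = false := by
      rw [Bool.eq_false_iff]
      intro h
      rw [hadj 0 j (by omega) (by omega)] at h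
      omega
    have h6 : v 0 ≠ v j := by
      intro h
      have := hinj 0 j (by omega) (by omega) h
      omega
    rw [Nat.testBit_xor, compl_testBit _ (hlt j (by omega)), h5, one_shl_testBit h6]
    rfl
  · have h4 : Nat.testBit (N (v 0)) (v (k - 1)) = true := by
      rw [hadj 0 (k - 1) (by omega) (by omega)]
      right; exact ⟨rfl, rfl⟩
    have h5 : Nat.testBit (N (v 1)) (v (k - 1)) = false := by
      rw [Bool.eq_false_iff]
      intro h
      rw [hadj 1 (k - 1) (by omega) (by omega)] at h
      omega
    have h6 : v 1 ≠ v (k - 1) := by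
      intro h
      have := hinj 1 (k - 1) (by omega) (by omega) h
      omega
    rw [Nat.testBit_xor, Nat.testBit_and, h4, compl_testBit _ (hlt (k - 1) (by omega)), h5,
      one_shl_testBit h6]
    rfl

set_option maxRecDepth 1000000 in
theorem search_G : search nb (fun l : Nat => !(l == 4) && !(l == 6)) = false := by
  decide +kernel

set_option maxRecDepth 1000000 in
theorem search_C : search cnb (fun l : Nat => !(l == 4)) = false := by
  decide +kernel

theorem pf_CYC : T_CYC := by
  intro k v hk hinj hadj
  by_contra hne
  have hb : (fun l : Nat => !(l == 4) && !(l == 6)) k = true := by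
    have h1 : k ≠ 4 := fun h => hne (Or.inl h)
    have h2 : k ≠ 6 := fun h => hne (Or.inr h)
    simp [h1, h2]
  have := search_complete nb (fun l : Nat => !(l == 4) && !(l == 6)) k (fun i => (v i).1) hk (fun i _ => (v i).2)
    (fun i j hi hj h => hinj i j hi hj (Fin.ext h))
    (fun i j hij hj => by
      have := hadj i j hij hj
      rw [G_adj] at this
      exact this) hb
  rw [search_G] at this
  exact Bool.noConfusion this

theorem pf_ACYC : T_ACYC := by
  intro k v hk hinj hadj
  by_contra hne
  have hb : (fun l : Nat => !(l == 4)) k = true := by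
    simp [hne]
  have := search_complete cnb (fun l : Nat => !(l == 4)) k (fun i => (v i).1) hk (fun i _ => (v i).2)
    (fun i j hi hj h => hinj i j hi hj (Fin.ext h))
    (fun i j hij hj => by
      have h1 := hadj i j hij hj
      rw [G_adj] at h1
      have h2 : v i ≠ v j := by
        intro h
        have := hinj i j (by omega) hj h
        omega
      have h3 := CA_iff (v i) (v j)
      unfold CA at h3
      rw [h3, ← h1]
      simp [h2]) hb
  rw [search_C] at this
  exact Bool.noConfusion this

end Pool.Agent.H50.EC
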