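import Pool.Agent.H50.EC.Targets

/-! From the finite facts about the graph to the negation of the frozen statement. -/

set_option autoImplicit false

namespace Pool.Agent.H50.EC

theorem cyc_adj (k : ℕ) (i j : ℕ) (hij : i < j) (hj : j < k) :
    (SimpleGraph.cycleGraph k).Adj (⟨i, by omega⟩ : Fin k) ⟨j, hj⟩ ↔
      (j = i + 1 ∨ (i = 0 ∧ j = k - 1)) := by
  rw [SimpleGraph.cycleGraph_adj']
  have h1 : ((⟨i, by omega⟩ : Fin k) - ⟨j, hj⟩).val = k - j + i := by
    rw [Fin.val_sub]
    exact Nat.mod_eq_of_lt (by simp only; omega)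
  have h2 : ((⟨j, hj⟩ : Fin k) - ⟨i, by omega⟩).val = j - i := by
    rw [Fin.val_sub]
    have : k - i + j = k + (j - i) := by omega
    simp only
    rw [this, Nat.add_mod_left]
    exact Nat.mod_eq_of_lt (by omega)
  rw [h1, h2]
  constructor
  · rintro (h | h)
    · right; omega
    · left; omega
  · rintro (h | h)
    · right; omega
    · left; omega

theorem noOddHole (hC : T_CYC) :
    ¬ ∃ k : ℕ, 5 ≤ k ∧ k % 2 = 1 ∧ Nonempty (SimpleGraph.cycleGraph k ↪g G) := by
  rintro ⟨k, hk, hodd, ⟨f⟩⟩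
  have h := hC k (fun i => if h : i < k then f ⟨i, h⟩ else 0) (by omega)
    (by
      intro i j hi hj h
      simp only [hi, hj, dif_pos] at h
      have := f.injective h
      exact congrArg Fin.val this)
    (by
      intro i j hij hj
      have hi : i < k := by omega
      simp only [hi, hj, dif_pos]
      rw [← cyc_adj k i j hij hj]
      exact f.map_rel_iff)
  omega

theorem noAntihole (hA : T_ACYC) :
    ¬ ∃ k : ℕ, 5 ≤ k ∧ Nonempty ((SimpleGraph.cycleGraph k)ᶜ ↪g G) := by
  rintro ⟨k, hk, ⟨f⟩⟩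
  have h := hA k (fun i => if h : i < k then f ⟨i, h⟩ else 0) (by omega)
    (by
      intro i j hi hj h
      simp only [hi, hj, dif_pos] at h
      have := f.injective h
      exact congrArg Fin.val this)
    (by
      intro i j hij hj
      have hi : i < k := by omega
      simp only [hi, hj, dif_pos]
      rw [← cyc_adj k i j hij hj]
      have h1 : G.Adj (f ⟨i, hi⟩) (f ⟨j, hj⟩) ↔
          ((SimpleGraph.cycleGraph k)ᶜ).Adj (⟨i, hi⟩ : Fin k) ⟨j, hj⟩ := f.map_rel_iff
      rw [h1, SimpleGraph.compl_adj]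
      have h2 : (⟨i, hi⟩ : Fin k) ≠ ⟨j, hj⟩ := by
        intro h
        have := congrArg Fin.val h
        simp only at this
        omega
      constructor
      · intro h3
        by_contra h4
        exact h3 ⟨h2, h4⟩
      · intro h3 h4
        exact h4.2 h3)
  omega

theorem notTop : G ≠ ⊤ := by
  intro h
  have h1 : G.Adj 0 1 := by
    rw [h, SimpleGraph.top_adj]
    decide
  rw [G_adj] at h1
  revert h1
  decide +kernel

/-- The left side of the equivalence fails for G. -/
theorem notPC (hN : T_NEP) :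
    ¬ (∀ (m : ℕ) (e : Fin m ↪ Fin 32),
      ∀ P : (k : ℕ) → SimpleGraph (Fin k) → Prop,
        (∀ k : ℕ, P k (⊤ : SimpleGraph (Fin k))) →
        (∀ (k : ℕ) (H : SimpleGraph (Fin (k+1))) (x y : Fin (k+1)) (φ : Fin (k+1) → Fin k),
          x ≠ y → ¬ H.Adj x y →
          (∀ p : H.Walk x y, p.IsPath →
            (∀ i j : ℕ, i + 1 < j → j ≤ p.length → ¬ H.Adj (p.getVert i) (p.getVert j)) →
            p.length % 2 = 0) →
          Function.Surjective φ →
          (∀ u v : Fin (k+1), φ u = φ v ↔ (u = v ∨ (u = x ∧ v = y) ∨ (u = y ∧ v = x))) →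
          P k (SimpleGraph.fromRel (fun a b : Fin k => ∃ u v : Fin (k+1), φ u = a ∧ φ v = b ∧ H.Adj u v)) →
          P (k+1) H) →
        P m (SimpleGraph.comap (fun i : Fin m => e i) G)) := by
  intro h
  have h1 := h 32 (Function.Embedding.refl _)
    (fun k H => H = ⊤ ∨ ∃ x y : Fin k, x ≠ y ∧ ¬ H.Adj x y ∧
      (∀ p : H.Walk x y, p.IsPath →
        (∀ i j : ℕ, i + 1 < j → j ≤ p.length → ¬ H.Adj (p.getVert i) (p.getVert j)) →
        p.length % 2 = 0))
    (fun k => Or.inl rfl)
    (fun k H x y φ hxy hn he _ _ _ => Or.inr ⟨x, y, hxy, hn, he⟩)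
  have e : SimpleGraph.comap (fun i : Fin 32 => (Function.Embedding.refl (Fin 32)) i) G = G := by
    ext u v
    exact Iff.rfl
  rw [e] at h1
  rcases h1 with h1 | ⟨x, y, hxy, hn, he⟩
  · exact notTop h1
  · obtain ⟨p, hp, hc, ho⟩ := hN x y hxy hn
    have := he p hp hc
    omega

end Pool.Agent.H50.EC
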